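import Pool.Agent.Q215.BKR

/-!
For every `r ≥ 3` there are `A_1, ..., A_r ⊆ {0,1}^2` for which the simultaneous `r`-fold BKR
product is a proper subset of the intersection of all the binary-associated products of
`A_1 A_2 ... A_r`.
-/

set_option autoImplicit false

namespace Pool.Agent.Results.MP_3c3b39_pr.StrictForAll

open Pool.Agent.Q215.BKR

/-- The example: three proper factors, the others are the whole space. -/
def ex (k : ℕ) : Set (Fin 2 → Fin 2) :=
  if k = 1 then {x | x 0 = 0 ∨ x 1 = 1}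
  else if k = 2 then {x | x 0 = 0 ∨ x 1 = 0}
  else if k = 3 then {x | x 1 = 0 ∨ x 0 = 1}
  else Set.univ

theorem mem_box {A B : Set (Fin 2 → Fin 2)} {x : Fin 2 → Fin 2}
    (h : (cyl x {0} ⊆ A ∧ cyl x {1} ⊆ B) ∨ (cyl x {1} ⊆ A ∧ cyl x {0} ⊆ B)) : x ∈ box A B := by
  rcases h with ⟨h1, h2⟩ | ⟨h1, h2⟩
  · exact ⟨{0}, {1}, by decide, h1, h2⟩
  · exact ⟨{1}, {0}, by decide, h1, h2⟩

theorem mem_cyl {x y : Fin 2 → Fin 2} {i : Fin 2} (h : y ∈ cyl x {i}) : y i = x i :=
  h i (Finset.mem_singleton_self i)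

theorem left_mem : (0 : Fin 2 → Fin 2) ∈ box (box (ex 1) (ex 2)) (ex 3) := by
  refine mem_box (Or.inl ⟨fun y hy => ?_, fun y hy => ?_⟩)
  · have h0 : y 0 = 0 := mem_cyl hy
    have h1 : y 1 = 0 ∨ y 1 = 1 := by omega
    rcases h1 with h1 | h1
    · refine mem_box (Or.inl ⟨fun z hz => ?_, fun z hz => ?_⟩)
      · exact Or.inl ((mem_cyl hz).trans h0)
      · exact Or.inr ((mem_cyl hz).trans h1)
    · refine mem_box (Or.inr ⟨fun z hz => ?_, fun z hz => ?_⟩)
      · exact Or.inr ((mem_cyl hz).trans h1)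
      · exact Or.inl ((mem_cyl hz).trans h0)
  · exact Or.inl (mem_cyl hy)

theorem right_mem : (0 : Fin 2 → Fin 2) ∈ box (ex 1) (box (ex 2) (ex 3)) := by
  refine mem_box (Or.inl ⟨fun y hy => ?_, fun y hy => ?_⟩)
  · exact Or.inl (mem_cyl hy)
  · have h1 : y 1 = 0 := mem_cyl hy
    have h0 : y 0 = 0 ∨ y 0 = 1 := by omega
    rcases h0 with h0 | h0
    · refine mem_box (Or.inl ⟨fun z hz => ?_, fun z hz => ?_⟩)
      · exact Or.inl ((mem_cyl hz).trans h0)
      · exact Or.inl ((mem_cyl hz).trans h1)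
    · refine mem_box (Or.inr ⟨fun z hz => ?_, fun z hz => ?_⟩)
      · exact Or.inr ((mem_cyl hz).trans h1)
      · exact Or.inr ((mem_cyl hz).trans h0)

theorem nonempty_of_cyl {x : Fin 2 → Fin 2} {K : Finset (Fin 2)} {i : ℕ} (h1 : 1 ≤ i) (h3 : i ≤ 3)
    (h : cyl x K ⊆ ex i) : K.Nonempty := by
  rw [Finset.nonempty_iff_ne_empty]
  rintro rfl
  have key : ∀ y : Fin 2 → Fin 2, y ∈ ex i := fun y => h (fun j hj => absurd hj (by simp))
  have hi : i = 1 ∨ i = 2 ∨ i = 3 := by omega
  rcases hi with rfl | rfl | rfl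
  · have := key ![1, 0]
    simp [ex] at this
  · have := key ![1, 1]
    simp [ex] at this
  · have := key ![0, 1]
    simp [ex] at this

theorem three_disjoint : ∀ K L M : Finset (Fin 2), Disjoint K L → Disjoint K M → Disjoint L M →
    K.Nonempty → L.Nonempty → M.Nonempty → False := by decide

theorem simul_empty {r : ℕ} (hr : 3 ≤ r) : simul r ex = ∅ := by
  rw [Set.eq_empty_iff_forall_notMem]
  rintro x ⟨K, hd, h⟩
  exact three_disjoint (K 1) (K 2) (K 3) (hd 1 2 le_rfl (by omega) (by omega) (by omega) (by omega))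
    (hd 1 3 le_rfl (by omega) (by omega) (by omega) (by omega))
    (hd 2 3 (by omega) (by omega) (by omega) (by omega) (by omega))
    (nonempty_of_cyl (by omega) (by omega) (h 1 (by omega) (by omega)))
    (nonempty_of_cyl (by omega) (by omega) (h 2 (by omega) (by omega)))
    (nonempty_of_cyl (by omega) (by omega) (h 3 (by omega) (by omega)))

/-- For every `r ≥ 3` there are sets `A 1, ..., A r ⊆ {0,1}^2` whose simultaneous `r`-fold BKR
product is properly contained in the intersection of the binary-associated products given by all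
the bracketings (full binary trees with `r` leaves) of the word `A 1, ..., A r`. -/
theorem result : ∀ r : ℕ, 3 ≤ r → ∃ A : ℕ → Set (Fin 2 → Fin 2),
    simul r A ⊂ ⋂ t ∈ {t : BinaryTree Unit | t.numLeaves = r}, prod A t 1 := by
  intro r hr
  refine ⟨ex, ?_⟩
  rw [simul_empty hr, Set.ssubset_iff_subset_ne]
  refine ⟨Set.empty_subset _, fun h => ?_⟩
  have h0 : (0 : Fin 2 → Fin 2) ∈ ⋂ t ∈ {t : BinaryTree Unit | t.numLeaves = r}, prod ex t 1 := by
    simp only [Set.mem_iInter]
    intro t ht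
    have ht' : t.numLeaves = r := ht
    rcases prod_three ex t 1 1 2 3 le_rfl (by omega) (by omega) (by omega)
      (fun m h1 h2 h3 h4 h5 => by simp [ex, h3, h4, h5]) with h | h
    · rw [h]; exact left_mem
    · rw [h]; exact right_mem
  rw [← h] at h0
  exact h0

end Pool.Agent.Results.MP_3c3b39_pr.StrictForAll
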